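import Pool.Agent.TriIdx.Final

/-!
# Universal indices of canonical varieties with torsion canonical class grow triple exponentially
-/

namespace Pool.Agent.Results.MP_dc2ea4_ag.SylvesterLcm

open TriIdx

/-- Let `d = n + 1 ≥ 3` and `N = s_d - 1`, where `s_1 = 2, s_2 = 3, s_3 = 7, s_4 = 43, …` is
Sylvester's sequence (`s_d = syl n`). For every `m` with `N < m ≤ 2 N` there is a projective variety
over `ℂ` of dimension `d` with canonical singularities and torsion canonical class of index exactly
`m`; hence every `I > 0` with `I K_X ∼ 0` for all projective `X` of dimension `d` with canonical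
singularities and torsion `K_X` is divisible by all the integers up to `2 N`, and is at least
`2 ^ 2 ^ 2 ^ (d - 2)`. -/
theorem result (n : ℕ) (hn : 2 ≤ n) :
    (∀ m : ℕ, syl n - 1 < m → m ≤ 2 * (syl n - 1) →
      ∃ (K : Type) (_ : Field K) (_ : Algebra ℂ K) (ι : Type) (_ : Finite ι) (_ : Nonempty ι)
        (f : ι → K), IsModel n f ∧ CanonicalTorsion n f ∧ ∀ I : ℕ, IsIndex n f I ↔ m ∣ I) ∧
    (∀ I : ℕ, 0 < I → UniversalIndex n I →
      (Finset.Icc 1 (2 * (syl n - 1))).lcm id ∣ I ∧ 2 ^ (syl n - 1) ≤ I ∧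
        2 ^ 2 ^ 2 ^ (n - 1) ≤ I) := by
  constructor
  · intro m h1 h2
    obtain ⟨K, i1, i2, f, hf⟩ := exists_variety n hn m h1 h2
    exact ⟨K, i1, i2, FI n, inferInstance, inferInstance, f, hf⟩
  · intro I hI0 hI
    have h := universal_dvd n hn I hI
    exact ⟨lcm_dvd n I h, growth n hn I hI0 h⟩

end Pool.Agent.Results.MP_dc2ea4_ag.SylvesterLcm
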