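import Pool.Agent.TorusIdx.Final

/-!
# The optimal index of quotients of complex tori, in every dimension at least four
-/

namespace Pool.Agent.Results.MP_dc2ea4_ag.TorusQuotients

open Module Pool.Agent.TorusIdx

/-- For `d ≥ 4`, the number `torusIndex d` is the optimal common index of the `d`-dimensional
quotients of complex tori by finite groups: it is an index of all of them, and it divides every
common index of those which are projective and have canonical singularities. -/
theorem result (d : ℕ) (hd : 4 ≤ d) :
    (∀ (V : Type) [NormedAddCommGroup V] [NormedSpace ℂ V] [FiniteDimensional ℂ V]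
      (Γ : Subgroup (V ≃ᵃ[ℂ] V)), finrank ℂ V = d → IsTorusQuotient Γ →
      CanonicalPowerTrivial Γ (torusIndex d)) ∧
    (∀ I : ℕ, (∀ (V : Type) [NormedAddCommGroup V] [NormedSpace ℂ V] [FiniteDimensional ℂ V]
      (Γ : Subgroup (V ≃ᵃ[ℂ] V)), finrank ℂ V = d → IsTorusQuotient Γ →
      HasCanonicalSingularities Γ → IsProjective Γ → CanonicalPowerTrivial Γ I) →
      torusIndex d ∣ I) := by
  refine ⟨?_, fun I hI => torusIndex_dvd d hd I hI⟩
  intro V _ _ _ Γ hdim hΓ
  subst hdim
  exact canonicalPowerTrivial_torusIndex hΓ (by omega)

end Pool.Agent.Results.MP_dc2ea4_ag.TorusQuotients
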